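import Pool.Agent.N354.UC.D
import Pool.Agent.N478.UC.A
import Pool.Agent.N513.CE.Fin

/-!
# A non-sofic group whose unlabelled Cayley graph is a weak limit of laws of finite graphs
-/

set_option autoImplicit false

open Pool.Agent.N354.UC

namespace Pool.Agent.Results.MP_1644eb_al.NonSoficLimit

/-- There are a finitely generated group which is not sofic and a finite symmetric generating set
without the identity such that the point mass at the unlabelled Cayley graph is the weak limit of
the laws of a sequence of finite simple graphs. -/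
theorem result :
    ∃ (Γ : Type) (_ : Group Γ) (S : Finset Γ), (∀ s ∈ S, s⁻¹ ∈ S) ∧ (1 : Γ) ∉ S ∧
      Subgroup.closure (S : Set Γ) = ⊤ ∧ ¬ Sofic Γ ∧ IsLimit (cay S) (1 : Γ) :=
  goal_of Pool.Agent.N478.UC.t_A (Pool.Agent.N513.CE.frozen_of_goal Pool.Agent.N513.CE.goal)

end Pool.Agent.Results.MP_1644eb_al.NonSoficLimit
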